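import Mathlib
import Pool.Agent.H47.RR.Nec

set_option autoImplicit false

namespace Pool.Agent.Results.MP_31565c_an.TraceZeroPreservers

open Polynomial

/-- The space `V_d` of real polynomials of degree at most `d` whose coefficient of index `d - 1`
vanishes. -/
noncomputable def V (d : ℕ) : Submodule ℝ ℝ[X] where
  carrier := {p | p.natDegree ≤ d ∧ p.coeff (d - 1) = 0}
  add_mem' := by
    rintro p q ⟨hp1, hp2⟩ ⟨hq1, hq2⟩
    exact ⟨(natDegree_add_le _ _).trans (max_le hp1 hq1), by rw [coeff_add, hp2, hq2, add_zero]⟩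
  zero_mem' := ⟨by simp, by simp⟩
  smul_mem' := by
    rintro c p ⟨hp1, hp2⟩
    exact ⟨(natDegree_smul_le _ _).trans hp1, by rw [coeff_smul, hp2, smul_zero]⟩

/-- All complex zeros are real; the zero polynomial counts as real-rooted. -/
def RealRooted (p : ℝ[X]) : Prop := p = 0 ∨ ∀ z : ℂ, aeval z p = 0 → z.im = 0

/-- `T` is the diagonal map with symbols `l k`: it sends `t^k` to `l k * t^k` whenever `t^k` is in
`V_d`. -/
def IsDiagonal {d : ℕ} (T : V d →ₗ[ℝ] V d) (l : ℕ → ℝ) : Prop :=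
  ∀ (k : ℕ) (p : V d), (p : ℝ[X]) = X ^ k → (T p : ℝ[X]) = C (l k) * X ^ k

/-- `T` preserves real-rootedness on `V_d`. -/
def Preserves {d : ℕ} (T : V d →ₗ[ℝ] V d) : Prop :=
  ∀ p : V d, RealRooted (p : ℝ[X]) → RealRooted (T p : ℝ[X])

/-- At least `n` of the real zeros of `p`, counted with multiplicity, are `≥ 0`, or at least `n` of
them are `≤ 0`. -/
def SameSign (n : ℕ) (p : ℝ[X]) : Prop :=
  n ≤ (p.roots.filter (fun x => 0 ≤ x)).card ∨ n ≤ (p.roots.filter (fun x => x ≤ 0)).card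

theorem mem_V {d : ℕ} {p : ℝ[X]} : p ∈ V d ↔ p.natDegree ≤ d ∧ p.coeff (d - 1) = 0 := Iff.rfl

theorem q_mem (d : ℕ) (hd : 2 ≤ d) : (X - 1) ^ (d - 1) * (X + C ((d:ℝ) - 1)) ∈ V d := by
  obtain ⟨m, rfl⟩ : ∃ m, d = m + 2 := ⟨d - 2, by omega⟩
  have e : (X - 1) ^ (m + 2 - 1) * (X + C (((m + 2 : ℕ):ℝ) - 1)) = H47.RR.qq (m + 1) := by
    unfold H47.RR.qq
    have h1 : m + 2 - 1 = m + 1 := by omega
    have h2 : (((m + 2 : ℕ):ℝ) - 1) = ((m + 1 : ℕ):ℝ) := by push_cast; ring
    rw [h1, h2, C_1]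
  rw [e, mem_V]
  exact ⟨(H47.RR.qq_natDegree _).le, H47.RR.qq_coeff_mid _⟩

/-- The polynomial `q_d = (t - 1)^(d-1) (t + d - 1)`. -/
noncomputable def q (d : ℕ) (hd : 2 ≤ d) : V d :=
  ⟨(X - 1) ^ (d - 1) * (X + C ((d:ℝ) - 1)), q_mem d hd⟩

theorem q_coe (m : ℕ) (hd : 2 ≤ m + 2) : ((q (m + 2) hd : V (m + 2)) : ℝ[X]) =
    H47.RR.qq (m + 1) := by
  unfold q H47.RR.qq
  have h1 : m + 2 - 1 = m + 1 := by omega
  have h2 : (((m + 2 : ℕ):ℝ) - 1) = ((m + 1 : ℕ):ℝ) := by push_cast; ring
  simp only [h1, h2, C_1]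

theorem diag_apply {d : ℕ} {T : V d →ₗ[ℝ] V d} {l : ℕ → ℝ} (hT : IsDiagonal T l) (p : V d) :
    (T p : ℝ[X]) = H47.RR.dg l (p : ℝ[X]) := by
  classical
  -- the monomials lying in the space
  have hmem : ∀ k ∈ (Finset.range (d + 1)).filter (fun k => k ≠ d - 1), (X ^ k : ℝ[X]) ∈ V d := by
    intro k hk
    rw [Finset.mem_filter, Finset.mem_range] at hk
    rw [mem_V, natDegree_X_pow, coeff_X_pow, if_neg (fun h => hk.2 h.symm)]
    exact ⟨by omega, rfl⟩
  set S := (Finset.range (d + 1)).filter (fun k => k ≠ d - 1) with hS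
  have hp : p = ∑ k : S, (p : ℝ[X]).coeff k • (⟨X ^ (k:ℕ), hmem k k.2⟩ : V d) := by
    apply Subtype.ext
    rw [Submodule.coe_sum]
    simp only [Submodule.coe_smul]
    ext j
    rw [finsetSum_coeff]
    simp only [coeff_smul, coeff_X_pow, smul_eq_mul, mul_ite, mul_one, mul_zero]
    rw [Finset.sum_coe_sort S (fun k => if j = k then (p : ℝ[X]).coeff k else 0),
      Finset.sum_ite_eq]
    split_ifs with hj
    · rfl
    · have h1 : j = d - 1 ∨ d < j := by
        by_contra hcon
        push Not at hcon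
        apply hj
        rw [hS, Finset.mem_filter, Finset.mem_range]
        exact ⟨by omega, hcon.1⟩
      rcases h1 with h1 | h1
      · rw [h1]; exact p.2.2
      · exact coeff_eq_zero_of_natDegree_lt (lt_of_le_of_lt p.2.1 h1)
  have hTp : (T p : ℝ[X]) = ∑ k : S, (p : ℝ[X]).coeff k • (C (l k) * X ^ (k:ℕ)) := by
    conv_lhs => rw [hp]
    rw [map_sum, Submodule.coe_sum]
    apply Finset.sum_congr rfl
    intro k _
    rw [map_smul, Submodule.coe_smul, hT k _ rfl]
  rw [hTp]
  ext j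
  rw [finsetSum_coeff, H47.RR.coeff_dg]
  simp only [coeff_smul, coeff_C_mul, coeff_X_pow, smul_eq_mul, mul_ite, mul_one, mul_zero]
  rw [Finset.sum_coe_sort S (fun k => if j = k then (p : ℝ[X]).coeff k * l k else 0),
    Finset.sum_ite_eq]
  split_ifs with hj
  · ring
  · have h1 : j = d - 1 ∨ d < j := by
      by_contra hcon
      push Not at hcon
      apply hj
      rw [hS, Finset.mem_filter, Finset.mem_range]
      exact ⟨by omega, hcon.1⟩
    have h2 : (p : ℝ[X]).coeff j = 0 := by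
      rcases h1 with h1 | h1
      · rw [h1]; exact p.2.2
      · exact coeff_eq_zero_of_natDegree_lt (lt_of_le_of_lt p.2.1 h1)
    rw [h2, mul_zero]

theorem realRooted_iff {p : ℝ[X]} : RealRooted p ↔ p.Splits := H47.RR.splits_iff_im.symm

theorem preserves_iff {m : ℕ} {T : V (m + 2) →ₗ[ℝ] V (m + 2)} {l : ℕ → ℝ} (hT : IsDiagonal T l) :
    Preserves T ↔ H47.RR.Pres (m + 2) {m + 1} l := by
  constructor
  · intro h p hp hs
    have hpV : p ∈ V (m + 2) := ⟨hp.1, hp.2 (m + 1) rfl⟩
    have := h ⟨p, hpV⟩ (realRooted_iff.2 hs)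
    rw [diag_apply hT] at this
    exact realRooted_iff.1 this
  · intro h p hp
    rw [diag_apply hT]
    refine realRooted_iff.2 (h _ ⟨p.2.1, ?_⟩ (realRooted_iff.1 hp))
    rintro k rfl
    exact p.2.2

theorem filter_full {M : Multiset ℝ} {P : ℝ → Prop} [DecidablePred P] :
    M.card ≤ (M.filter P).card ↔ ∀ x ∈ M, P x := by
  constructor
  · intro h
    have h1 : M.filter P = M := Multiset.eq_of_le_of_card_le (Multiset.filter_le _ _) h
    exact Multiset.filter_eq_self.1 h1
  · intro h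
    rw [Multiset.filter_eq_self.2 h]

/-- **Theorem.** Let `d ≥ 2` and let `T` be a diagonal linear map of `V_d` with symbols `l k`.

(1) If `l d ≠ 0` then `T (q_d)` has degree `d`, and `T` preserves real-rootedness if and only if
`T (q_d)` is real-rooted and at least `d - 1` of its zeros have the same sign.

(2) Without any condition on `l d`: `T` preserves real-rootedness if and only if `T (q_d)` is
real-rooted and at least `d - 1` of its zeros (all of them when there are fewer) have the same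
sign.

Signs are weak, so a zero at the origin counts as being of either sign. -/
theorem result (d : ℕ) (hd : 2 ≤ d) (l : ℕ → ℝ) (T : V d →ₗ[ℝ] V d) (hT : IsDiagonal T l) :
    (l d ≠ 0 → (T (q d hd) : ℝ[X]).natDegree = d ∧
      (Preserves T ↔ RealRooted (T (q d hd) : ℝ[X]) ∧ SameSign (d - 1) (T (q d hd) : ℝ[X]))) ∧
    (Preserves T ↔ RealRooted (T (q d hd) : ℝ[X]) ∧
      SameSign (min (d - 1) (T (q d hd) : ℝ[X]).natDegree) (T (q d hd) : ℝ[X])) := by
  obtain ⟨m, rfl⟩ : ∃ m, d = m + 2 := ⟨d - 2, by omega⟩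
  rw [preserves_iff hT, diag_apply hT, q_coe m hd, realRooted_iff]
  have h1 : m + 2 - 1 = m + 1 := by omega
  rw [h1]
  set r := H47.RR.dg l (H47.RR.qq (m + 1)) with hr
  by_cases hl : l (m + 2) = 0
  · refine ⟨fun h => absurd hl h, ?_⟩
    rw [H47.RR.main_B hl, ← hr]
    have hdeg : r.natDegree ≤ m := by
      rw [natDegree_le_iff_coeff_eq_zero]
      intro N hN
      rw [hr, H47.RR.coeff_dg]
      rcases Nat.lt_or_ge (m + 2) N with h | h
      · rw [coeff_eq_zero_of_natDegree_lt (by rw [H47.RR.qq_natDegree]; omega), mul_zero]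
      · rcases Nat.lt_or_ge N (m + 2) with h' | h'
        · have : N = m + 1 := by omega
          rw [this, H47.RR.qq_coeff_mid, mul_zero]
        · have : N = m + 2 := by omega
          rw [this, hl, zero_mul]
    rw [min_eq_right (by omega)]
    apply and_congr_right
    intro hs
    unfold SameSign
    rw [← splits_iff_card_roots.1 hs, filter_full, filter_full]
  · have hdeg : r.natDegree = m + 2 := by
      apply le_antisymm
      · refine (H47.RR.natDegree_dg_le _ _).trans ?_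
        rw [H47.RR.qq_natDegree]
      · apply le_natDegree_of_ne_zero
        rw [hr, H47.RR.coeff_dg, H47.RR.qq_coeff_top]
        exact mul_ne_zero hl one_ne_zero
    rw [hdeg, min_eq_left (by omega)]
    have h2 := H47.RR.main_A hl
    exact ⟨fun _ => ⟨rfl, h2⟩, h2⟩

end Pool.Agent.Results.MP_31565c_an.TraceZeroPreservers
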